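import Pool.Agent.D0H95.NB.Main
import Pool.Agent.W821.TB.Rot
import Pool.Agent.W827.TB.Gram

set_option autoImplicit false

/-!
# Lyapunov stable relative periodic orbits of the planar `n`-body problem are degenerate

Let `x` be a relative periodic solution of the planar `n`-body problem which is not a relative
equilibrium, `x (t + T) = c • x t` with a rotation `c`.

(1) Persistence. If `x` is nondegenerate (the time shift and the rotation are the only solutions `ξ` of
the linearized equations along `x` with `ξ (t + T) = c • ξ t`), then for every real `s` near `0` there is a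
solution `y` starting near `x 0` with `y (t + T) = exp (i s) c • y t`: the same period of the shape and the
rotation changed by the angle `s`. So there are quasiperiodic solutions as near to `x` as desired.

(2) If the orbit of `x` is Lyapunov stable in the centre of mass frame, then `x` is degenerate, for every
pair `T, c` (thus also as a relative periodic orbit of the period `k T`, for every `k ≥ 1`).

(3) The same stated for the mutual distances: if all the mutual distances have the period `T` and the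
orbit is Lyapunov stable, then `x (t + 2 T) = c • x t` with a rotation `c`, and there is a Jacobi field
`ξ (t + 2 T) = c • ξ t` which is no combination of the time shift and the rotation.

Proof. (1) The fixed points of `z ↦ exp (-i s) c⁻¹ Φ_T z`, by an implicit function theorem with the two
conserved functions energy and angular momentum: the kernel of the linearization has the dimension two, and
the differentials of energy and angular momentum are independent at `x 0` since `x` is not a relative
equilibrium. (2) By the starting result `StableOrbitsLockRotations` all the relative periodic solutions near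
a Lyapunov stable one are periodic with the `2 K`-fold period of the shape, `K` fixed; this contradicts (1).
-/

namespace Pool.Agent.Results.MP_5027f4_mp.StableOrbitsAreDegenerate

open Filter Topology

/-- Phase points of `n` bodies in the plane `ℂ`: positions and velocities (product topology). -/
abbrev Ph (n : ℕ) := (Fin n → ℂ) × (Fin n → ℂ)

/-- Newtonian acceleration of body `a`: `∑_{b ≠ a} m_b (q_b - q_a) / |q_b - q_a|^3`. -/
noncomputable def acc {n : ℕ} (m : Fin n → ℝ) (q : Fin n → ℂ) (a : Fin n) : ℂ :=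
  ∑ b ∈ Finset.univ.erase a, ((m b / ‖q b - q a‖ ^ 3 : ℝ) : ℂ) * (q b - q a)

/-- Newton's vector field: the velocities and the accelerations. -/
noncomputable def newton {n : ℕ} (m : Fin n → ℝ) (z : Ph n) : Ph n := (z.2, acc m z.1)

/-- The phase space in the centre of mass frame: no collisions, `∑ m_a q_a = 0`, `∑ m_a v_a = 0`. -/
def phaseSpace {n : ℕ} (m : Fin n → ℝ) : Set (Ph n) :=
  {z | (∀ a b, a ≠ b → z.1 a ≠ z.1 b) ∧ ∑ a, (m a : ℂ) * z.1 a = 0 ∧ ∑ a, (m a : ℂ) * z.2 a = 0}

/-- `x = (q, v)` is a solution of Newton's equations on the time set `J`, in the centre of mass frame. -/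
def IsSol {n : ℕ} (m : Fin n → ℝ) (J : Set ℝ) (x : ℝ → Ph n) : Prop :=
  ∀ t ∈ J, x t ∈ phaseSpace m ∧ HasDerivWithinAt x (newton m (x t)) J t

/-- All mutual distances of the solution `x` are `T`-periodic functions of time. -/
def DistPer {n : ℕ} (x : ℝ → Ph n) (T : ℝ) : Prop :=
  ∀ t a b, ‖(x (t + T)).1 a - (x (t + T)).1 b‖ = ‖(x t).1 a - (x t).1 b‖

/-- All mutual distances are constant: a relative equilibrium. -/
def IsRelEq {n : ℕ} (x : ℝ → Ph n) : Prop :=
  ∀ t a b, ‖(x t).1 a - (x t).1 b‖ = ‖(x 0).1 a - (x 0).1 b‖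

/-- Lyapunov stability of an orbit `γ` in the centre of mass frame: for every neighbourhood `U₁` there is
a neighbourhood `U₂` such that every solution on `[0, ∞)` that starts in `U₂` stays in `U₁`. -/
def LyapunovStable {n : ℕ} (m : Fin n → ℝ) (γ : Set (Ph n)) : Prop :=
  ∀ U₁ : Set (Ph n), IsOpen U₁ → γ ⊆ U₁ → ∃ U₂ : Set (Ph n), IsOpen U₂ ∧ γ ⊆ U₂ ∧
    ∀ y : ℝ → Ph n, IsSol m (Set.Ici 0) y → y 0 ∈ U₂ → ∀ t : ℝ, 0 ≤ t → y t ∈ U₁

/-- `ξ` is a Jacobi field along `x`: it solves the linearization of Newton's equations along `x`, for all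
times, in the centre of mass frame. -/
def IsJacobi {n : ℕ} (m : Fin n → ℝ) (x ξ : ℝ → Ph n) : Prop :=
  ∀ t, (∑ a, (m a : ℂ) * (ξ t).1 a = 0 ∧ ∑ a, (m a : ℂ) * (ξ t).2 a = 0) ∧
    HasDerivAt ξ (fderiv ℝ (newton m) (x t) (ξ t)) t

/-- `ξ` is a real combination of the time shift `d x / d t` and of the infinitesimal rotation `i x`. -/
def Trivial {n : ℕ} (m : Fin n → ℝ) (x ξ : ℝ → Ph n) : Prop :=
  ∃ α β : ℝ, ∀ t, ξ t = α • newton m (x t) + β • (Complex.I • x t)

/-- Nondegenerate relative periodic solution `x (t + T) = c • x t`: all the Jacobi fields `ξ` with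
`ξ (t + T) = c • ξ t` are trivial. -/
def Nondegenerate {n : ℕ} (m : Fin n → ℝ) (x : ℝ → Ph n) (T : ℝ) (c : ℂ) : Prop :=
  ∀ ξ : ℝ → Ph n, IsJacobi m x ξ → (∀ t, ξ (t + T) = c • ξ t) → Trivial m x ξ

theorem result {n : ℕ} {m : Fin n → ℝ} (hn : 2 ≤ n) (hm : ∀ a, 0 < m a) {x : ℝ → Ph n}
    (hx : IsSol m Set.univ x) (hne : ¬ IsRelEq x) :
    (∀ (T : ℝ) (c : ℂ), 0 < T → ‖c‖ = 1 → (∀ t, x (t + T) = c • x t) → Nondegenerate m x T c →
      ∀ U : Set (Ph n), IsOpen U → x 0 ∈ U → ∃ ε : ℝ, 0 < ε ∧ ∀ s : ℝ, |s| < ε →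
        ∃ y : ℝ → Ph n, IsSol m Set.univ y ∧ y 0 ∈ U ∧
          ∀ t, y (t + T) = (Complex.exp (s * Complex.I) * c) • y t) ∧
    (LyapunovStable m (Set.range x) →
      (∀ (T : ℝ) (c : ℂ), 0 < T → ‖c‖ = 1 → (∀ t, x (t + T) = c • x t) → ¬ Nondegenerate m x T c) ∧
      ∀ T : ℝ, 0 < T → DistPer x T → ∃ c : ℂ, ‖c‖ = 1 ∧ (∀ t, x (t + 2 * T) = c • x t) ∧
        ∃ ξ : ℝ → Ph n, IsJacobi m x ξ ∧ (∀ t, ξ (t + 2 * T) = c • ξ t) ∧ ¬ Trivial m x ξ) := by
  have key : ∀ (T : ℝ) (c : ℂ), Nondegenerate m x T c → Pool.Agent.D0H95.NB.Nondeg m x T c :=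
    fun T c h ξ hξ hp => h ξ (fun t => ⟨(hξ t).1, (hξ t).2⟩) hp
  refine ⟨fun T c hT hc hper hnd U hU hxU => ?_, fun hst => ?_⟩
  · have h := Pool.Agent.D0H95.NB.persistence hn hm hx hne hT hc hper (key T c hnd)
      (hU.mem_nhds hxU)
    obtain ⟨ε, hε0, hε⟩ := Metric.eventually_nhds_iff.mp h
    exact ⟨ε, hε0, fun s hs => hε (by rwa [Real.dist_eq, sub_zero])⟩
  · have h1 : ∀ (T : ℝ) (c : ℂ), 0 < T → ‖c‖ = 1 → (∀ t, x (t + T) = c • x t) →
        ¬ Nondegenerate m x T c := fun T c hT hc hper hnd =>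
      Pool.Agent.D0H95.NB.stable_degenerate hn hm hx hne hst hT hc hper (key T c hnd)
    refine ⟨h1, fun T hT hd => ?_⟩
    obtain ⟨c, hc, hper⟩ := Pool.Agent.W821.TB.rot_of_distPer Pool.Agent.W827.TB.Gram.main hn hm hx hd
    refine ⟨c, hc, hper, ?_⟩
    have h2 := h1 (2 * T) c (by positivity) hc hper
    unfold Nondegenerate at h2
    push Not at h2
    exact h2

end Pool.Agent.Results.MP_5027f4_mp.StableOrbitsAreDegenerate
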